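import Pool.Agent.MP_ea150c_mp.H20.SpecM

/-! Congruences in one chart. -/

namespace Pool.Agent.MP_ea150c_mp.H22

open Pool.Agent.MP_ea150c_mp.H20

theorem pair_dvd {F E : Type} [Fintype F] [Fintype E] [DecidableEq E] (ω : E → Option F → ℤ)
    (f g h : (E → Option F) → ℤ) (k a b : ℤ) (H : ∀ x, k ∣ a * f x - (g x - b * h x)) :
    k ∣ a * pair ω f - (pair ω g - b * pair ω h) := by
  unfold pair
  rw [Finset.mul_sum, Finset.mul_sum, ← Finset.sum_sub_distrib, ← Finset.sum_sub_distrib]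
  refine Finset.dvd_sum fun x _ => ?_
  have := (H x).mul_left (∏ e, ω e (x e))
  convert this using 1
  ring

theorem num (q n : ℕ) (hq : 2 ≤ q) (z : ℤ) (hz : z = if n = 1 then 1 else 0) (h : ∃ c, n = q ^ c) :
    (q : ℤ) ^ 3 ∣ (1 - q) * z - ((n : ℤ) ^ 2 - q * (n : ℤ) ^ 1) ∧
    (q : ℤ) ^ 2 ∣ 1 * z - ((n : ℤ) ^ 2 - 0 * (n : ℤ) ^ 1) ∧
    (q : ℤ) ∣ 1 * z - ((n : ℤ) ^ 1 - 0 * (n : ℤ) ^ 1) := by
  obtain ⟨c, rfl⟩ := h
  rcases c with _ | c
  · simp [hz]
  · rw [if_neg (Nat.one_lt_pow (by omega) (by omega)).ne'] at hz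
    subst hz
    push_cast
    refine ⟨?_, ⟨-((q : ℤ) ^ c) ^ 2, by ring⟩, ⟨-(q : ℤ) ^ c, by ring⟩⟩
    rcases c with _ | c
    · simp [sq]
    · exact ⟨(q : ℤ) ^ c - q * ((q : ℤ) ^ c) ^ 2, by ring⟩

theorem cop (q A : ℤ) (h : q ^ 3 ∣ (1 - q) * A) : q ^ 3 ∣ A :=
  IsCoprime.dvd_of_dvd_mul_left (IsCoprime.pow_left ⟨1, 1, by ring⟩) h

theorem ofAbsA : OfAbsA := by
  intro h4 hd F E _ _ _ _ _ U Z m hm hE hZ hP
  have hq : 2 ≤ Fintype.card F := Fintype.one_lt_card
  have hq0 : (Fintype.card F : ℤ) ≠ 0 := by exact_mod_cast (by omega : Fintype.card F ≠ 0)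
  have hc : (Nat.card Z : ℤ) = (Fintype.card F : ℤ) ^ m := by
    rw [Module.natCard_eq_pow_finrank (K := F), hZ, Nat.card_eq_fintype_card]
    push_cast
    rfl
  have hn := fun x => num _ _ hq (zz U Z x) rfl ((hd F E Z).2.2 U x)
  have hR : ∀ C D : Finset E, Disjoint C D → (C ∪ D)ᶜ.card + C.card + D.card = 2 * m := by
    intro C D h
    have := Finset.card_add_card_compl (C ∪ D)
    rw [Finset.card_union_of_disjoint h] at this
    omega
  have h1 : ∀ C D : Finset E, Disjoint C D → ∀ k, C.card + k ≤ m →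
      (Fintype.card F : ℤ) ^ k ∣ pair (wa C D) (fun x => (nsol U Z x : ℤ) ^ 1) := by
    intro C D h k hk
    have e := h4 F E U Z C D 1 hP h
    have e2 := hR C D h
    obtain ⟨r, hr⟩ : ∃ r, 1 * D.card + (C ∪ D)ᶜ.card = m + (k + r) :=
      ⟨m - C.card - k, by omega⟩
    rw [hc, pow_one, hr, pow_add, mul_assoc] at e
    rw [mul_left_cancel₀ (pow_ne_zero _ hq0) e, pow_add, mul_assoc]
    exact dvd_mul_right _ _
  have h2 : ∀ C D : Finset E, Disjoint C D → ∀ r, D.card = C.card + r →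
      pair (wa C D) (fun x => (nsol U Z x : ℤ) ^ 2) =
        (Fintype.card F : ℤ) ^ r * NQ 2 (van Z D) (C ∪ D)ᶜ := by
    intro C D h r hr
    have e := h4 F E U Z C D 2 hP h
    have e2 := hR C D h
    rw [hc, ← pow_mul, show 2 * D.card + (C ∪ D)ᶜ.card = m * 2 + r by omega, pow_add,
      mul_assoc] at e
    exact mul_left_cancel₀ (pow_ne_zero _ hq0) e
  have h3 : ∀ C D : Finset E, Disjoint C D → ∀ r k, D.card = C.card + r → k ≤ r + 2 →
      k + C.card ≤ m → (Fintype.card F : ℤ) ^ k ∣ pair (wa C D) (fun x => (nsol U Z x : ℤ) ^ 2) := by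
    intro C D h r k hr hk hk'
    have a1 := (hd F E (van Z D)).1 (C ∪ D)ᶜ
    have a2 := (hd F E Z).2.1 D
    have a3 : (Fintype.card F : ℤ) ^ min 2 (Module.finrank F (van Z D)) ∣
        NQ 2 (van Z D) (C ∪ D)ᶜ := by exact_mod_cast a1
    rw [h2 C D h r hr]
    refine dvd_trans ?_ (mul_dvd_mul_left _ a3)
    rw [← pow_add]
    exact pow_dvd_pow _ (by omega)
  have hq3 : ∀ D : Finset E, (Fintype.card F : ℤ) ^ 3 ∣
      Fintype.card F * pair (wa ∅ D) (fun x => (nsol U Z x : ℤ) ^ 1) :=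
    fun D => (h1 ∅ D (by simp) 3 (by simpa using hm)).mul_left _
  refine ⟨fun D hD => ?_, fun e D hD he => ?_, fun C hC => ?_, ?_⟩
  · have a := pair_dvd (wa ∅ D) _ _ _ _ _ _ fun x => (hn x).1
    have b := h3 ∅ D (by simp) D.card 3 (by simp) (by have := hD.card_pos; omega) (by simpa using hm)
    exact cop _ _ (by simpa using dvd_add a (dvd_sub b (hq3 D)))
  · have a := pair_dvd (wa {e} D) _ _ _ _ _ _ fun x => (hn x).2.1
    have b := h3 {e} D (by simpa using he) (D.card - 1) 2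
      (by have := hD.card_pos; rw [Finset.card_singleton]; omega) (by omega)
      (by rw [Finset.card_singleton]; omega)
    have := dvd_add a b
    rwa [zero_mul, sub_zero, sub_add_cancel, one_mul] at this
  · have a := pair_dvd (wa C ∅) _ _ _ _ _ _ fun x => (hn x).2.2
    have b := h1 C ∅ (by simp) 1 (by omega)
    rw [pow_one] at b
    have := dvd_add a b
    rwa [zero_mul, sub_zero, sub_add_cancel, one_mul] at this
  · have a := pair_dvd (wa ∅ ∅) _ _ _ _ _ _ fun x => (hn x).1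
    have b := h2 ∅ ∅ (by simp) 0 (by simp)
    have e1 : van Z (∅ : Finset E) = Z := by simp [van]
    rw [pow_zero, one_mul, e1, Finset.empty_union, Finset.compl_empty] at b
    have c := (hd F E Z).1 Finset.univ
    rw [hZ, min_eq_left (by omega)] at c
    have c' : (Fintype.card F : ℤ) ^ 3 ∣ Fintype.card F * (NQ 2 Z Finset.univ : ℤ) := by
      rw [pow_succ']
      exact mul_dvd_mul_left _ (by exact_mod_cast c)
    rw [b] at a
    refine cop _ _ ?_
    refine (dvd_add (dvd_sub a (hq3 ∅)) c').trans (dvd_of_eq ?_)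
    ring

end Pool.Agent.MP_ea150c_mp.H22
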